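import Pool.Agent.W809.FKM.Stms

/-! FK-CROSS: sectors of the plane. -/

set_option autoImplicit false
open scoped ComplexConjugate Topology
open Complex

namespace Pool.Agent.W134.FKM
open Pool.Agent.W809.FKM

/-- the argument in `[0, 2π)` -/
noncomputable def AA (u : ℂ) : ℝ := if 0 ≤ arg u then arg u else arg u + 2 * Real.pi

theorem ang_eq (w z : ℂ) : ang w z = AA (z / w) := rfl

theorem AA_nonneg (u : ℂ) : 0 ≤ AA u := by
  unfold AA
  split_ifs with h
  · exact h
  · have := neg_pi_lt_arg u
    have := Real.pi_pos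
    linarith

theorem AA_lt (u : ℂ) : AA u < 2 * Real.pi := by
  unfold AA
  have := Real.pi_pos
  split_ifs with h
  · have := arg_le_pi u
    linarith
  · push Not at h
    linarith

theorem AA_spec (u : ℂ) : u = ‖u‖ * exp (AA u * I) := by
  unfold AA
  split_ifs with h
  · exact (norm_mul_exp_arg_mul_I u).symm
  · push_cast
    rw [add_mul, exp_add, exp_two_pi_mul_I, mul_one]
    exact (norm_mul_exp_arg_mul_I u).symm

theorem AA_unique {r φ : ℝ} (hr : 0 < r) (h0 : 0 ≤ φ) (h1 : φ < 2 * Real.pi) :
    AA (r * exp (φ * I)) = φ := by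
  have hpi := Real.pi_pos
  by_cases h : φ ≤ Real.pi
  · have h2 : arg (r * exp (φ * I)) = φ := by
      rw [arg_real_mul _ hr, arg_exp_mul_I]
      rw [toIocMod_eq_self]
      constructor
      · linarith
      · linarith
    unfold AA
    rw [h2, if_pos h0]
  · push Not at h
    have h2 : arg (r * exp (φ * I)) = φ - 2 * Real.pi := by
      have h3 : exp (φ * I) = exp (((φ - 2 * Real.pi : ℝ) : ℂ) * I) := by
        push_cast
        rw [sub_mul, exp_sub, exp_two_pi_mul_I, div_one]
      rw [h3, arg_real_mul _ hr, arg_exp_mul_I, toIocMod_eq_self]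
      constructor
      · linarith
      · linarith
    unfold AA
    rw [h2, if_neg (by linarith)]
    ring

theorem AA_pos {w w' : ℂ} (hw : ‖w‖ = 1) (hw' : ‖w'‖ = 1) (h : w ≠ w') : 0 < AA (w' / w) := by
  rcases (AA_nonneg (w' / w)).lt_or_eq with h1 | h1
  · exact h1
  · exfalso
    have h2 := AA_spec (w' / w)
    rw [← h1, norm_div, hw, hw'] at h2
    simp only [div_one, ofReal_one, ofReal_zero, zero_mul, exp_zero, mul_one] at h2
    have hw0 : w ≠ 0 := by intro h3; rw [h3, norm_zero] at hw; exact zero_ne_one hw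
    rw [div_eq_one_iff_eq hw0] at h2
    exact h h2.symm

theorem angc : S_ANGC := by
  intro w w' z hw hw' hne hz
  rw [ang_eq, ang_eq, ang_eq, ang_eq]
  have hw0 : w ≠ 0 := by intro h3; rw [h3, norm_zero] at hw; exact zero_ne_one hw
  have hw0' : w' ≠ 0 := by intro h3; rw [h3, norm_zero] at hw'; exact zero_ne_one hw'
  set θ := AA (w' / w) with hθ
  set φ := AA (z / w) with hφ
  have hθ0 : 0 < θ := AA_pos hw hw' hne
  have hθ1 : θ < 2 * Real.pi := AA_lt _
  have hφ0 : 0 ≤ φ := AA_nonneg _
  have hφ1 : φ < 2 * Real.pi := AA_lt _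
  have e1 : w' / w = exp (θ * I) := by
    have := AA_spec (w' / w)
    rw [norm_div, hw, hw'] at this
    simpa using this
  have e2 : z / w = ‖z / w‖ * exp (φ * I) := AA_spec _
  have hr : 0 < ‖z / w‖ := norm_pos_iff.2 (div_ne_zero hz hw0)
  have e3 : w / w' = ((1 : ℝ) : ℂ) * exp (((2 * Real.pi - θ : ℝ) : ℂ) * I) := by
    push_cast
    rw [sub_mul, exp_sub, exp_two_pi_mul_I, ← e1]
    field_simp
  have h3 : AA (w / w') = 2 * Real.pi - θ := by
    rw [e3]
    exact AA_unique one_pos (by linarith) (by linarith)
  have e4 : z / w' = ‖z / w‖ * exp (((φ - θ : ℝ) : ℂ) * I) := by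
    push_cast
    rw [sub_mul, exp_sub, ← e1, ← mul_div_assoc, ← e2]
    field_simp
  have e5 : z / w' = ‖z / w‖ * exp (((φ - θ + 2 * Real.pi : ℝ) : ℂ) * I) := by
    rw [e4]
    push_cast
    rw [add_mul, exp_add, exp_two_pi_mul_I, mul_one]
  rw [h3]
  by_cases h : φ < θ
  · have h4 : AA (z / w') = φ - θ + 2 * Real.pi := by
      rw [e5]
      exact AA_unique hr (by linarith) (by linarith)
    rw [h4]
    constructor
    · intro h5; exact absurd h h5
    · intro h5; linarith
  · have h4 : AA (z / w') = φ - θ := by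
      rw [e4]
      push Not at h
      exact AA_unique hr (by linarith) (by linarith)
    rw [h4]
    constructor
    · intro _; linarith
    · intro _; exact h

theorem AA_slit {u : ℂ} (hu : -u ∈ slitPlane) : AA u = arg (-u) + Real.pi := by
  have hu0 : u ≠ 0 := by
    intro h
    rw [h, neg_zero] at hu
    exact zero_notMem_slitPlane hu
  have h1 : u = (‖u‖ : ℝ) * exp (((arg (-u) + Real.pi : ℝ) : ℂ) * I) := by
    push_cast
    rw [add_mul, exp_add, exp_pi_mul_I]
    have h2 := norm_mul_exp_arg_mul_I (-u)
    rw [norm_neg] at h2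
    rw [mul_neg_one, mul_neg, h2, neg_neg]
  have h2 := neg_pi_lt_arg (-u)
  have h3 : arg (-u) < Real.pi := lt_of_le_of_ne (arg_le_pi _) (slitPlane_arg_ne_pi hu)
  have h4 := AA_unique (norm_pos_iff.2 hu0) (φ := arg (-u) + Real.pi) (by linarith) (by linarith)
  rw [← h1] at h4
  exact h4

theorem AA_cont {u : ℂ} (hu : -u ∈ slitPlane) : ContinuousAt AA u := by
  have h1 : ContinuousAt (fun u : ℂ => arg (-u) + Real.pi) u := by
    have h2 : ContinuousAt arg (-u) := continuousAt_arg hu
    have h3 : ContinuousAt (fun u : ℂ => -u) u := continuous_neg.continuousAt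
    exact (ContinuousAt.comp (f := fun u : ℂ => -u) (g := arg) h2 h3).add continuousAt_const
  refine h1.congr ?_
  have h2 : {v : ℂ | -v ∈ slitPlane} ∈ 𝓝 u :=
    (isOpen_slitPlane.preimage continuous_neg).mem_nhds hu
  filter_upwards [h2] with v hv
  exact (AA_slit hv).symm

theorem cross : S_CROSS := by
  intro w w' x y hw hw' hne hx hy
  have hw0 : w ≠ 0 := by intro h3; rw [h3, norm_zero] at hw; exact zero_ne_one hw
  set θ := ang w w' with hθ
  set S : Set ℂ := {z | ang w z < θ} with hS
  -- the frontier lies on the two rays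
  have hfr : ∀ z ∈ frontier S, ∃ t : ℝ, 0 ≤ t ∧ (z = t * w ∨ z = t * w') := by
    intro z hz
    by_contra hcon
    push Not at hcon
    have hslit : -(z / w) ∈ slitPlane := by
      rw [mem_slitPlane_iff_arg]
      constructor
      · intro h1
        rw [arg_eq_pi_iff] at h1
        have h2 : z / w = ((z / w).re : ℝ) := by
          apply Complex.ext
          · simp
          · have := h1.2
            rw [neg_im, neg_eq_zero] at this
            simpa using this
        have h3 : 0 ≤ (z / w).re := by
          have := h1.1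
          rw [neg_re] at this
          linarith
        apply (hcon _ h3).1
        rw [← h2]
        field_simp
      · intro h1
        rw [neg_eq_zero, div_eq_zero_iff] at h1
        rcases h1 with h1 | h1
        · apply (hcon 0 le_rfl).1
          rw [h1]; simp
        · exact hw0 h1
    have hcont : ContinuousAt (fun z => ang w z) z := by
      have h1 : ContinuousAt AA (z / w) := AA_cont hslit
      have h2 : ContinuousAt (fun z : ℂ => z / w) z := by fun_prop
      exact ContinuousAt.comp (f := fun z : ℂ => z / w) (g := AA) h1 h2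
    rcases lt_trichotomy (ang w z) θ with h | h | h
    · have h1 : S ∈ 𝓝 z := hcont.eventually_lt continuousAt_const h
      rw [frontier, Set.mem_diff] at hz
      exact hz.2 (mem_interior_iff_mem_nhds.2 h1)
    · apply (hcon ‖z / w‖ (norm_nonneg _)).2
      have h1 := AA_spec (z / w)
      have h2 := AA_spec (w' / w)
      rw [norm_div, hw, hw'] at h2
      simp only [div_one, ofReal_one, one_mul] at h2
      rw [← ang_eq, h, hθ, ang_eq, ← h2] at h1
      field_simp at h1
      exact h1
    · have h1 : Sᶜ ∈ 𝓝 z := by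
        have h2 : ∀ᶠ v in 𝓝 z, θ < ang w v := continuousAt_const.eventually_lt hcont h
        filter_upwards [h2] with v hv
        exact not_lt.2 hv.le
      rw [← frontier_compl, frontier, Set.mem_diff] at hz
      exact hz.2 (mem_interior_iff_mem_nhds.2 h1)
  have hconn : IsPreconnected (segment ℝ x y) := (convex_segment x y).isPreconnected
  obtain ⟨p, hp1, hp2⟩ : (segment ℝ x y ∩ frontier S).Nonempty := by
    by_contra hcon
    rw [Set.not_nonempty_iff_eq_empty] at hcon
    have hno : ∀ z ∈ segment ℝ x y, z ∉ frontier S := fun z hz hz2 => by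
      have : z ∈ segment ℝ x y ∩ frontier S := ⟨hz, hz2⟩
      rw [hcon] at this
      exact this
    have hint : ∀ z ∈ segment ℝ x y, z ∈ S → z ∈ interior S := by
      intro z hz hzS
      by_contra h
      apply hno z hz
      exact ⟨subset_closure hzS, h⟩
    have hint' : ∀ z ∈ segment ℝ x y, z ∉ S → z ∈ interior Sᶜ := by
      intro z hz hzS
      by_contra h
      apply hno z hz
      rw [← frontier_compl]
      exact ⟨subset_closure hzS, h⟩
    obtain ⟨z, -, hz1, hz2⟩ := hconn (interior S) (interior Sᶜ) isOpen_interior isOpen_interior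
      (fun z hz => by
        by_cases h : z ∈ S
        · exact Or.inl (hint z hz h)
        · exact Or.inr (hint' z hz h))
      ⟨x, left_mem_segment ℝ x y, hint x (left_mem_segment ℝ x y) hx⟩
      ⟨y, right_mem_segment ℝ x y, hint' y (right_mem_segment ℝ x y) hy⟩
    exact (interior_subset hz2) (interior_subset hz1)
  have hdist : ‖x - p‖ ≤ ‖x - y‖ := by
    have h1 := norm_sub_le_of_mem_segment hp1
    rwa [norm_sub_rev p x, norm_sub_rev y x] at h1
  obtain ⟨t, ht, h⟩ := hfr p hp2
  refine ⟨t, ht, ?_⟩
  rcases h with h | h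
  · left; rw [← h]; exact hdist
  · right; rw [← h]; exact hdist

end Pool.Agent.W134.FKM
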