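import Pool.Agent.W809.FKM.Stms

/-! FK-PLOC: local constancy of the parity of the kernel of odd essentially unitary operators. -/

set_option autoImplicit false
open scoped ComplexConjugate Topology
open Complex

namespace Pool.Agent.W134.FKM
open Pool.Agent.W809.FKM

variable {E : Type} [NormedAddCommGroup E] [InnerProductSpace ℂ E] [CompleteSpace E]

/-- Fredholm alternative in the form needed -/
theorem isUnit_of_inj {C : E →L[ℂ] E} (hc : IsCompactOperator (C - 1 : E →L[ℂ] E))
    (hi : ∀ x, C x = 0 → x = 0) : IsUnit C := by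
  rcases hc.hasEigenvalue_or_mem_resolventSet (μ := (-1 : ℂ)) (by norm_num) with h | h
  · exfalso
    obtain ⟨x, hx⟩ := h.exists_hasEigenvector
    have h1 : (C - 1) x = (-1 : ℂ) • x := hx.apply_eq_smul
    have h2 : C x - x = -x := by
      have : (C - 1) x = C x - x := rfl
      rw [← this, h1]; simp
    apply hx.2
    apply hi
    have h3 : C x = (C x - x) + x := by abel
    rw [h3, h2]; simp
  · rw [spectrum.mem_resolventSet_iff] at h
    have h1 : algebraMap ℂ (E →L[ℂ] E) (-1) - (C - 1) = -C := by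
      rw [map_neg, map_one]; abel
    rw [h1, IsUnit.neg_iff] at h
    exact h

theorem finDim_ker {F : E →L[ℂ] E} (hc : IsCompactOperator (star F * F - 1 : E →L[ℂ] E)) :
    FiniteDimensional ℂ (LinearMap.ker (F : E →ₗ[ℂ] E)) := by
  set N := LinearMap.ker (F : E →ₗ[ℂ] E) with hN
  have hk : ∀ x ∈ N, (star F * F - 1 : E →L[ℂ] E) x = -x := by
    intro x hx
    have h1 : F x = 0 := hx
    change star F (F x) - x = -x
    rw [h1, map_zero, zero_sub]
  have hV : ∀ v ∈ N, ((star F * F - 1 : E →L[ℂ] E) : E →ₗ[ℂ] E) v ∈ N := by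
    intro v hv
    have : ((star F * F - 1 : E →L[ℂ] E) : E →ₗ[ℂ] E) v = -v := hk v hv
    rw [this]
    exact N.neg_mem hv
  have hcl : IsClosed (N : Set E) := F.isClosed_ker
  have hc' : IsCompactOperator (((star F * F - 1 : E →L[ℂ] E) : E →ₗ[ℂ] E)) := hc
  have h1 := hc'.restrict hV hcl
  have h2 := h1.neg
  refine FiniteDimensional.of_isCompactOperator_id (𝕜 := ℂ) (E := N) ?_
  have h3 : (-((((star F * F - 1 : E →L[ℂ] E) : E →ₗ[ℂ] E).restrict hV : N →ₗ[ℂ] N) : N → N)) =
      (id : N → N) := by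
    funext x
    apply Subtype.ext
    change -((star F * F - 1 : E →L[ℂ] E) x) = (x : E)
    rw [hk x x.2, neg_neg]
  rw [h3] at h2
  exact h2

variable {Θ : E ≃ₗᵢ⋆[ℂ] E}

theorem odd_star (hΘ : ∀ x, Θ (Θ x) = -x) {G : E →L[ℂ] E} (hG : OddT Θ G) (x : E) :
    (star G) (Θ x) = Θ (G x) := by
  have h1 := hG (Θ x)
  rw [hΘ, map_neg] at h1
  have h2 := congrArg Θ h1
  rw [map_neg, hΘ, neg_inj] at h2
  exact h2.symm

theorem cpt_conj (hΘ : ∀ x, Θ (Θ x) = -x) {F : E →L[ℂ] E} (hF : OddT Θ F)
    (hc : IsCompactOperator (star F * F - 1 : E →L[ℂ] E)) :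
    IsCompactOperator (F * star F - 1 : E →L[ℂ] E) := by
  have e : ((F * star F - 1 : E →L[ℂ] E) : E → E) =
      fun ψ => -Θ ((star F * F - 1 : E →L[ℂ] E) (Θ ψ)) := by
    funext ψ
    change F (star F ψ) - ψ = -Θ (star F (F (Θ ψ)) - Θ ψ)
    rw [hF ψ, odd_star hΘ hF, map_sub, hΘ, hΘ]
    abel
  rw [e]
  have h1 : IsCompactOperator (fun ψ => (star F * F - 1 : E →L[ℂ] E) (Θ ψ)) :=
    hc.comp_clm ((Θ : E ≃SL[starRingEnd ℂ] E) : E →SL[starRingEnd ℂ] E)
  have h2 : IsCompactOperator (fun ψ => Θ ((star F * F - 1 : E →L[ℂ] E) (Θ ψ))) :=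
    h1.clm_comp ((Θ : E ≃SL[starRingEnd ℂ] E) : E →SL[starRingEnd ℂ] E)
  exact h2.neg

/-- the finite rank operator `x ↦ Σ ⟨b i, x⟩ Θ (b i)` -/
noncomputable def ZZ (Θ : E ≃ₗᵢ⋆[ℂ] E) {n : ℕ} (b : Fin n → E) : E →L[ℂ] E :=
  ∑ i, (innerSL ℂ (b i)).smulRight (Θ (b i))

theorem ZZ_app {n : ℕ} (b : Fin n → E) (x : E) :
    ZZ Θ b x = ∑ i, inner ℂ (b i) x • Θ (b i) := by
  unfold ZZ
  rw [ContinuousLinearMap.sum_apply]
  rfl

theorem ZZ_cpt {n : ℕ} (b : Fin n → E) : IsCompactOperator (ZZ Θ b : E →L[ℂ] E) := by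
  unfold ZZ
  have h1 : ∀ i, IsCompactOperator ((innerSL ℂ (b i)).smulRight (Θ (b i)) : E →L[ℂ] E) := by
    intro i
    have h2 : IsCompactOperator (fun z : ℂ => z • Θ (b i)) :=
      isCompactOperator_of_locallyCompactSpace_rng
        ((ContinuousLinearMap.id ℂ ℂ).smulRight (Θ (b i)))
    exact h2.comp_clm (innerSL ℂ (b i))
  have h3 : ∀ s : Finset (Fin n), IsCompactOperator
      ((∑ i ∈ s, (innerSL ℂ (b i)).smulRight (Θ (b i)) : E →L[ℂ] E)) := by
    intro s
    induction s using Finset.cons_induction with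
    | empty => simpa using cpt_zero
    | cons a s ha ih =>
      rw [Finset.sum_cons]
      exact cpt_add (h1 a) ih
  exact h3 Finset.univ

theorem ortho_T {n : ℕ} {b : Fin n → E} (hb : Orthonormal ℂ b) :
    Orthonormal ℂ (fun i => Θ (b i)) := by
  rw [orthonormal_iff_ite] at hb ⊢
  intro i j
  rw [inner_T, hb]
  by_cases h : i = j
  · subst h; simp
  · rw [if_neg h, if_neg (Ne.symm h)]

theorem ZZ_eq_zero {n : ℕ} {b : Fin n → E} (hb : Orthonormal ℂ b) {x : E}
    (h : ZZ Θ b x = 0) (i : Fin n) : inner ℂ (b i) x = 0 := by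
  have h1 := (ortho_T (Θ := Θ) hb).inner_right_fintype (fun i => inner ℂ (b i) x) i
  rw [← ZZ_app, h, inner_zero_right] at h1
  exact h1.symm

theorem star_app_eq (F : E →L[ℂ] E) (x y : E) : inner ℂ (star F x) y = inner ℂ x (F y) := by
  rw [ContinuousLinearMap.star_eq_adjoint, ContinuousLinearMap.adjoint_inner_left]

theorem app_star_eq (F : E →L[ℂ] E) (x y : E) : inner ℂ x (star F y) = inner ℂ (F x) y := by
  rw [ContinuousLinearMap.star_eq_adjoint, ContinuousLinearMap.adjoint_inner_right]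

/-- two orthogonal vectors with sum zero vanish -/
theorem both_zero {u v : E} (h : inner ℂ u v = 0) (hs : u + v = 0) : u = 0 ∧ v = 0 := by
  have h1 : v = -u := by rw [add_comm] at hs; exact eq_neg_of_add_eq_zero_left hs
  rw [h1, inner_neg_right, neg_eq_zero, inner_self_eq_zero] at h
  rw [h1, h]
  simp

theorem isUnit_of_both {R : Type} [Monoid R] {a s : R} (h1 : IsUnit (s * a))
    (h2 : IsUnit (a * s)) : IsUnit a := by
  obtain ⟨u, hu⟩ := h1
  obtain ⟨v, hv⟩ := h2
  have hl : (↑u⁻¹ * s) * a = 1 := by rw [mul_assoc, ← hu, Units.inv_mul]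
  have hr : a * (s * ↑v⁻¹) = 1 := by rw [← mul_assoc, ← hv, Units.mul_inv]
  have heq : (↑u⁻¹ * s : R) = s * ↑v⁻¹ := left_inv_eq_right_inv hl hr
  exact ⟨⟨a, s * ↑v⁻¹, hr, by rw [← heq]; exact hl⟩, rfl⟩

theorem lower_bound {A : E →L[ℂ] E} (hA : IsUnit A) :
    ∃ c : ℝ, 0 < c ∧ ∀ x, c * ‖x‖ ≤ ‖A x‖ := by
  obtain ⟨u, hu⟩ := hA
  refine ⟨1 / (‖(↑u⁻¹ : E →L[ℂ] E)‖ + 1), by positivity, fun x => ?_⟩
  have h1 : (↑u⁻¹ : E →L[ℂ] E) (A x) = x := by
    have h2 : ((↑u⁻¹ : E →L[ℂ] E) * A) x = (1 : E →L[ℂ] E) x := by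
      rw [← hu, Units.inv_mul]
    exact h2
  have h2 : ‖x‖ ≤ ‖(↑u⁻¹ : E →L[ℂ] E)‖ * ‖A x‖ := by
    calc ‖x‖ = ‖(↑u⁻¹ : E →L[ℂ] E) (A x)‖ := by rw [h1]
      _ ≤ _ := ContinuousLinearMap.le_opNorm _ _
  rw [div_mul_eq_mul_div, one_mul, div_le_iff₀ (by positivity)]
  have h3 : 0 ≤ ‖A x‖ := norm_nonneg _
  nlinarith

theorem partA {n : ℕ} {F : E →L[ℂ] E} (hΘ : ∀ x, Θ (Θ x) = -x) (hF : OddT Θ F)
    (hc : IsCompactOperator (star F * F - 1 : E →L[ℂ] E)) {b : Fin n → E}
    (hbo : Orthonormal ℂ b) (hbN : ∀ i, F (b i) = 0)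
    (hzero : ∀ x : E, F x = 0 → (∀ i, inner ℂ (b i) x = 0) → x = 0) :
    star F * ZZ Θ b = 0 ∧ IsUnit (F + ZZ Θ b) := by
  set Z : E →L[ℂ] E := ZZ Θ b with hZ
  have hFZ : star F * Z = 0 := by
    refine ContinuousLinearMap.ext fun x => ?_
    change star F (Z x) = 0
    rw [hZ, ZZ_app, map_sum]
    refine Finset.sum_eq_zero fun i _ => ?_
    rw [map_smul, odd_star hΘ hF, hbN, map_zero, smul_zero]
  have hZF : Z * star F = 0 := by
    refine ContinuousLinearMap.ext fun x => ?_
    change Z (star F x) = 0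
    rw [hZ, ZZ_app]
    refine Finset.sum_eq_zero fun i _ => ?_
    rw [app_star_eq, hbN, inner_zero_left, zero_smul]
  have hZcpt : IsCompactOperator (Z : E →L[ℂ] E) := ZZ_cpt b
  have hZF' : star Z * F = 0 := by
    have := congrArg star hFZ
    rwa [star_mul, star_star, star_zero] at this
  have hFZ' : F * star Z = 0 := by
    have := congrArg star hZF
    rwa [star_mul, star_star, star_zero] at this
  set A : E →L[ℂ] E := F + Z with hA
  -- A*A is a unit
  have hu1 : IsUnit (star A * A) := by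
    refine isUnit_of_inj ?_ ?_
    · have e : star A * A - 1 = (star F * F - 1) + star Z * Z := by
        rw [hA, star_add, add_mul, mul_add, mul_add, hFZ, hZF']
        abel
      rw [e]
      exact cpt_add hc (cpt_mul_left _ hZcpt)
    · intro x hx
      have h1 : A x = 0 := by
        have h2 : inner ℂ x ((star A * A) x) = 0 := by rw [hx, inner_zero_right]
        change inner ℂ x (star A (A x)) = 0 at h2
        rwa [app_star_eq, inner_self_eq_zero] at h2
      have h2 : inner ℂ (F x) (Z x) = 0 := by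
        rw [← app_star_eq]
        have h3 : star F (Z x) = (star F * Z) x := rfl
        rw [h3, hFZ]
        simp
      obtain ⟨h4, h5⟩ := both_zero h2 h1
      exact hzero x h4 (ZZ_eq_zero hbo h5)
  have hu2 : IsUnit (A * star A) := by
    refine isUnit_of_inj ?_ ?_
    · have e : A * star A - 1 = (F * star F - 1) + Z * star Z := by
        rw [hA, star_add, add_mul, mul_add, mul_add, hFZ', hZF]
        abel
      rw [e]
      exact cpt_add (cpt_conj hΘ hF hc) (cpt_mul_right _ hZcpt)
    · intro y hy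
      have h1 : star A y = 0 := by
        have h2 : inner ℂ y ((A * star A) y) = 0 := by rw [hy, inner_zero_right]
        change inner ℂ y (A (star A y)) = 0 at h2
        rwa [← star_app_eq, inner_self_eq_zero] at h2
      have h1' : star F y + star Z y = 0 := by
        rw [hA, star_add] at h1
        exact h1
      have h2 : inner ℂ (star F y) (star Z y) = 0 := by
        rw [star_app_eq]
        have h3 : F (star Z y) = (F * star Z) y := rfl
        rw [h3, hFZ']
        simp
      obtain ⟨h4, h5⟩ := both_zero h2 h1'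
      have h6 : F (Θ y) = 0 := by rw [hF, h4, map_zero]
      have h7 : Θ y = 0 := by
        refine hzero _ h6 fun j => ?_
        have h8 : inner ℂ (star Z y) (b j) = 0 := by rw [h5, inner_zero_left]
        rw [star_app_eq] at h8
        have h9 : Z (b j) = Θ (b j) := by
          rw [hZ, ZZ_app]
          rw [Finset.sum_eq_single j]
          · rw [orthonormal_iff_ite.1 hbo, if_pos rfl, one_smul]
          · intro i _ hij
            rw [orthonormal_iff_ite.1 hbo, if_neg hij, zero_smul]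
          · intro h; exact absurd (Finset.mem_univ j) h
        rw [h9] at h8
        have h10 := inner_T' Θ hΘ y (b j)
        have h11 : inner ℂ (Θ (b j)) y = 0 := by
          rw [← inner_conj_symm, h8, map_zero]
        rw [h11, neg_zero] at h10
        rw [← inner_conj_symm, h10, map_zero]
      have h8 := hΘ y
      rw [h7, map_zero] at h8
      exact neg_eq_zero.1 h8.symm
  exact ⟨hFZ, isUnit_of_both hu1 hu2⟩

/-- FK-PLOC. -/
theorem ploc (hALT : S_ALT) : S_PLOC := by
  intro E _ _ _ Θ F hΘ hF hc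
  have hfd := finDim_ker hc
  set N := LinearMap.ker (F : E →ₗ[ℂ] E) with hN
  obtain ⟨n, hn⟩ : ∃ n, n = Module.finrank ℂ N := ⟨_, rfl⟩
  let B0 : OrthonormalBasis (Fin (Module.finrank ℂ N)) ℂ N := stdOrthonormalBasis ℂ N
  let B1 : OrthonormalBasis (Fin n) ℂ N := B0.reindex (finCongr hn.symm)
  set b : Fin n → E := fun i => (B1 i : E) with hb
  have hbo : Orthonormal ℂ b := by
    have := B1.orthonormal
    rw [orthonormal_iff_ite] at this ⊢
    intro i j
    exact this i j
  have hbN : ∀ i, F (b i) = 0 := fun i => (B1 i).2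
  have hexp : ∀ x : E, F x = 0 → x = ∑ i, inner ℂ (b i) x • b i := by
    intro x hx
    have h1 := B1.sum_repr' (⟨x, hx⟩ : N)
    have h2 := congrArg (fun z : N => (z : E)) h1
    simp only [Submodule.coe_sum, Submodule.coe_smul] at h2
    exact h2.symm
  have hzero : ∀ x : E, F x = 0 → (∀ i, inner ℂ (b i) x = 0) → x = 0 := by
    intro x hx h
    rw [hexp x hx]
    simp [h]
  obtain ⟨hFZ, hAu⟩ := partA hΘ hF hc hbo hbN hzero
  set Z : E →L[ℂ] E := ZZ Θ b with hZ
  set A : E →L[ℂ] E := F + Z with hA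
  obtain ⟨c, hc0, hcA⟩ := lower_bound hAu
  obtain ⟨ε, hε0, hε⟩ := Metric.isOpen_iff.1 (Units.isOpen (R := E →L[ℂ] E)) A hAu
  refine ⟨min ε c, lt_min hε0 hc0, ?_⟩
  intro G hG hGF
  have hGc : ‖G - F‖ < c := lt_of_lt_of_le hGF (min_le_right _ _)
  have hBu : IsUnit (G + Z) := by
    refine hε ?_
    rw [Metric.mem_ball, dist_eq_norm]
    have : G + Z - A = G - F := by rw [hA]; abel
    rw [this]
    exact lt_of_lt_of_le hGF (min_le_left _ _)
  have hBsurj : Function.Surjective (G + Z : E →L[ℂ] E) :=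
    (ContinuousLinearMap.isUnit_iff_bijective.1 hBu).2
  set E' := LinearMap.ker ((star F * G : E →L[ℂ] E) : E →ₗ[ℂ] E) with hE'
  have hE'mem : ∀ x, x ∈ E' ↔ star F (G x) = 0 := fun x => Iff.rfl
  choose xs hxs using fun i : Fin n => hBsurj (Θ (b i))
  have hxsE : ∀ i, xs i ∈ E' := by
    intro i
    rw [hE'mem]
    have h1 : G (xs i) = Θ (b i) - Z (xs i) := by
      rw [← hxs i]
      change G (xs i) = G (xs i) + Z (xs i) - Z (xs i)
      abel
    have h2 : star F (Z (xs i)) = (star F * Z) (xs i) := rfl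
    rw [h1, map_sub, odd_star hΘ hF, hbN, map_zero, h2, hFZ]
    simp
  have hli : LinearIndependent ℂ (fun i => (⟨xs i, hxsE i⟩ : E')) := by
    have h1 : LinearIndependent ℂ (fun i => Θ (b i)) := (ortho_T (Θ := Θ) hbo).linearIndependent
    have h2 : (fun i => Θ (b i)) = ((G + Z : E →L[ℂ] E) : E →ₗ[ℂ] E) ∘ xs := by
      funext i
      exact (hxs i).symm
    rw [h2] at h1
    have h3 : LinearIndependent ℂ xs := h1.of_comp _
    have h4 : xs = (E'.subtype : E' →ₗ[ℂ] E) ∘ (fun i => (⟨xs i, hxsE i⟩ : E')) := rfl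
    rw [h4] at h3
    exact h3.of_comp _
  -- coordinates
  let q : E' →ₗ[ℂ] (Fin n → ℂ) :=
    { toFun := fun x i => inner ℂ (b i) (x : E)
      map_add' := fun x y => by funext i; simp [inner_add_right]
      map_smul' := fun a x => by funext i; simp [inner_smul_right] }
  have hqi : Function.Injective q := by
    rw [← LinearMap.ker_eq_bot, LinearMap.ker_eq_bot']
    intro x hx
    have h1 : Z (x : E) = 0 := by
      rw [hZ, ZZ_app]
      refine Finset.sum_eq_zero fun i _ => ?_
      have : inner ℂ (b i) (x : E) = 0 := congrFun hx i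
      rw [this, zero_smul]
    have h2 : A (x : E) = F x := by
      rw [hA]
      change F x + Z x = F x
      rw [h1, add_zero]
    have h3 := hcA (x : E)
    rw [h2] at h3
    have h4 : inner ℂ (G (x : E)) (F x) = 0 := by
      have h5 := x.2
      rw [hE'mem] at h5
      rw [← star_app_eq, h5, inner_zero_left]
    have h5 : ‖F x‖ ≤ ‖(G - F) (x : E)‖ := by
      have h6 : ‖(G - F) (x : E)‖ ^ 2 = ‖G (x : E)‖ ^ 2 + ‖F x‖ ^ 2 := by
        have h7 := norm_sub_sq (𝕜 := ℂ) (G (x : E)) (F x)
        rw [h4] at h7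
        simp only [map_zero, mul_zero, sub_zero] at h7
        exact h7
      have h8 : ‖F x‖ ^ 2 ≤ ‖(G - F) (x : E)‖ ^ 2 := by
        rw [h6]
        nlinarith [sq_nonneg ‖G (x : E)‖]
      exact le_of_sq_le_sq h8 (norm_nonneg _)
    have h6 : ‖(G - F) (x : E)‖ ≤ ‖G - F‖ * ‖(x : E)‖ := ContinuousLinearMap.le_opNorm _ _
    by_contra hx0
    have h7 : 0 < ‖(x : E)‖ := by
      rw [norm_pos_iff]
      intro h8
      exact hx0 (Subtype.ext h8)
    nlinarith
  have hE'fd : FiniteDimensional ℂ E' := FiniteDimensional.of_injective q hqi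
  have hfr : Module.finrank ℂ E' = n := by
    apply le_antisymm
    · have h1 := LinearMap.finrank_le_finrank_of_injective hqi
      rwa [Module.finrank_fin_fun] at h1
    · have h1 := hli.fintype_card_le_finrank
      rwa [Fintype.card_fin] at h1
  have hqs : Function.Surjective q := by
    rw [← LinearMap.injective_iff_surjective_of_finrank_eq_finrank]
    · exact hqi
    · rw [hfr, Module.finrank_fin_fun]
  -- the alternating form
  let β : E' →ₗ[ℂ] E' →ₗ[ℂ] ℂ := LinearMap.mk₂ ℂ
    (fun x y => inner ℂ (Θ (y : E)) (G (x : E)))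
    (fun x x' y => by simp [inner_add_right])
    (fun a x y => by simp [inner_smul_right])
    (fun x y y' => by simp [inner_add_left])
    (fun a x y => by
      simp only [Submodule.coe_smul, Θ.map_smulₛₗ, inner_smul_left, conj_conj, smul_eq_mul])
  have hβ : ∀ x, β x x = 0 := by
    intro x
    change inner ℂ (Θ (x : E)) (G (x : E)) = 0
    have h1 := inner_T' Θ hΘ (x : E) (G (x : E))
    have h2 : inner ℂ (Θ (G (x : E))) (x : E) = inner ℂ (Θ (x : E)) (G (x : E)) := by
      rw [← odd_star hΘ hG, star_app_eq]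
    rw [h2] at h1
    exact self_eq_neg.1 h1
  have hker : LinearMap.ker β = Submodule.comap E'.subtype (LinearMap.ker (G : E →ₗ[ℂ] E)) := by
    ext x
    rw [LinearMap.mem_ker, Submodule.mem_comap, LinearMap.mem_ker]
    constructor
    · intro h
      change G (x : E) = 0
      have hw : F (Θ (G (x : E))) = 0 := by
        rw [hF]
        have := x.2
        rw [hE'mem] at this
        rw [this, map_zero]
      have h1 : Θ (G (x : E)) = 0 := by
        refine hzero _ hw fun i => ?_
        obtain ⟨y, hy⟩ := hqs (Pi.single i 1)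
        have h2 : inner ℂ (Θ (y : E)) (G (x : E)) = 0 := by
          have := congrArg (fun f : E' →ₗ[ℂ] ℂ => f y) h
          exact this
        rw [inner_T' Θ hΘ, neg_eq_zero] at h2
        rw [hexp _ hw, sum_inner] at h2
        simp only [inner_smul_left] at h2
        rw [Finset.sum_eq_single i] at h2
        · have h3 : inner ℂ (b i) (y : E) = 1 := by
            have := congrFun hy i
            rw [Pi.single_eq_same] at this
            exact this
          rw [h3, mul_one] at h2
          have h4 := congrArg conj h2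
          rwa [conj_conj, map_zero] at h4
        · intro j _ hj
          have h3 : inner ℂ (b j) (y : E) = 0 := by
            have := congrFun hy j
            rw [Pi.single_eq_of_ne hj] at this
            exact this
          rw [h3, mul_zero]
        · intro h3; exact absurd (Finset.mem_univ i) h3
      have h8 := hΘ (G (x : E))
      rw [h1, map_zero] at h8
      exact neg_eq_zero.1 h8.symm
    · intro h
      ext y
      change inner ℂ (Θ (y : E)) (G (x : E)) = 0
      have : G (x : E) = 0 := h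
      rw [this, inner_zero_right]
  have hle : LinearMap.ker (G : E →ₗ[ℂ] E) ≤ E' := by
    intro x hx
    rw [hE'mem]
    have : G x = 0 := hx
    rw [this, map_zero]
  have hfrk : Module.finrank ℂ (LinearMap.ker β) =
      Module.finrank ℂ (LinearMap.ker (G : E →ₗ[ℂ] E)) := by
    rw [hker]
    exact (Submodule.comapSubtypeEquivOfLe hle).finrank_eq
  have hfinal := hALT E' β hβ
  rw [hfr, hfrk, hn] at hfinal
  unfold par
  exact hfinal.symm

end Pool.Agent.W134.FKM
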